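import Mathlib

/-!
# A generic quaternionic matrix in a nondegenerate space is invertible
-/

namespace Pool.Agent.Helper11.Griff

open Matrix

theorem first_order {ι : Type*} [Fintype ι] [DecidableEq ι] (M₀ M₁ : Matrix ι ι ℂ)
    (hmax : ∀ t : ℝ, (M₀ + (t : ℂ) • M₁).rank ≤ M₀.rank) (w l : ι → ℂ)
    (hw : M₀.mulVec w = 0) (hl : Matrix.vecMul l M₀ = 0) : l ⬝ᵥ (M₁.mulVec w) = 0 := by
  by_contra hc
  let bas := Module.finBasis ℂ (LinearMap.range M₀.mulVecLin)
  have hli : LinearIndependent ℂ (fun i => (bas i : ι → ℂ)) :=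
    bas.linearIndependent.map' (Submodule.subtype _) (Submodule.ker_subtype _)
  have he : ∀ i, ∃ e : ι → ℂ, M₀.mulVec e = bas i := by
    intro i
    obtain ⟨e, he⟩ := (bas i).2
    exact ⟨e, he⟩
  choose e he using he
  let g : ℝ → Option (Fin (Module.finrank ℂ (LinearMap.range M₀.mulVecLin))) → (ι → ℂ) :=
    fun t o => o.elim (M₁.mulVec w) (fun i => (M₀ + (t : ℂ) • M₁).mulVec (e i))
  have hg0 : LinearIndependent ℂ (g 0) := by
    rw [linearIndependent_option]
    have h1 : g 0 ∘ some = fun i => (bas i : ι → ℂ) := by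
      funext i
      simp [g, he]
    rw [h1]
    refine ⟨hli, fun hmem => ?_⟩
    apply hc
    have h2 : ∀ x ∈ Submodule.span ℂ (Set.range fun i => (bas i : ι → ℂ)), l ⬝ᵥ x = 0 := by
      intro x hx
      induction hx using Submodule.span_induction with
      | mem x hx =>
        obtain ⟨i, rfl⟩ := hx
        simp only
        rw [← he i, Matrix.dotProduct_mulVec, hl, zero_dotProduct]
      | zero => simp
      | add x y _ _ hx hy => rw [dotProduct_add, hx, hy, add_zero]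
      | smul a x _ hx => rw [dotProduct_smul, hx, smul_zero]
    exact h2 _ hmem
  have hgc : Continuous g := by
    refine continuous_pi fun o => ?_
    cases o with
    | none => exact continuous_const
    | some i =>
      simp only [g, Option.elim_some]
      fun_prop
  have hev : ∀ᶠ t in nhds (0 : ℝ), LinearIndependent ℂ (g t) :=
    (isOpen_setOfPred_linearIndependent.preimage hgc).mem_nhds hg0
  have hev1 : ∀ᶠ t in nhdsWithin (0 : ℝ) {0}ᶜ, LinearIndependent ℂ (g t) :=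
    nhdsWithin_le_nhds hev
  have hev3 : ∀ᶠ t in nhdsWithin (0 : ℝ) {0}ᶜ, t ≠ 0 := self_mem_nhdsWithin
  have hev2 : ∀ᶠ t in nhdsWithin (0 : ℝ) {0}ᶜ, LinearIndependent ℂ (g t) ∧ t ≠ 0 :=
    hev1.and hev3
  obtain ⟨t, ht, ht0⟩ := hev2.exists
  have h3 : Submodule.span ℂ (Set.range (g t)) ≤
      LinearMap.range (M₀ + (t : ℂ) • M₁).mulVecLin := by
    rw [Submodule.span_le]
    rintro _ ⟨o, rfl⟩
    cases o with
    | none =>
      refine ⟨(t : ℂ)⁻¹ • w, ?_⟩
      have htc : (t : ℂ) ≠ 0 := by exact_mod_cast ht0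
      simp only [g, Option.elim_none, Matrix.mulVecLin_apply, Matrix.mulVec_smul,
        Matrix.add_mulVec, hw, zero_add, Matrix.smul_mulVec]
      rw [smul_smul, inv_mul_cancel₀ htc, one_smul]
    | some i => exact ⟨e i, rfl⟩
  have h4 := Submodule.finrank_mono h3
  rw [finrank_span_eq_card ht] at h4
  have h5 := hmax t
  simp only [Fintype.card_option, Fintype.card_fin] at h4
  unfold Matrix.rank at h5
  omega

/-- the quaternionic matrix attached to `x, y` -/
noncomputable def KM {n α β : Type*} [Fintype α] [Fintype β] (A : α → Matrix n n ℂ)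
    (B : β → Matrix n n ℂ) (u : (α → ℂ) × (β → ℂ)) : Matrix (n ⊕ n) (n ⊕ n) ℂ :=
  Matrix.fromBlocks (∑ s, u.1 s • A s) ((∑ t, u.2 t • B t).map star)
      (-(∑ t, u.2 t • B t)) ((∑ s, u.1 s • A s).map star)

variable {n α β : Type*} [Fintype α] [Fintype β] (A : α → Matrix n n ℂ) (B : β → Matrix n n ℂ)

theorem KM_add (u v : (α → ℂ) × (β → ℂ)) (t : ℝ) :
    KM A B (u + (t : ℂ) • v) = KM A B u + (t : ℂ) • KM A B v := by
  ext (i | i) (j | j) <;>
    simp only [KM, Matrix.fromBlocks_apply₁₁, Matrix.fromBlocks_apply₁₂,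
      Matrix.fromBlocks_apply₂₁, Matrix.fromBlocks_apply₂₂, Matrix.map_apply, Matrix.sum_apply,
      Matrix.smul_apply, Matrix.add_apply, Matrix.neg_apply, Prod.fst_add, Prod.snd_add,
      Prod.smul_fst, Prod.smul_snd, Pi.add_apply, Pi.smul_apply, smul_eq_mul, add_mul,
      Finset.sum_add_distrib, map_add, mul_assoc, ← Finset.mul_sum, map_mul, Complex.star_def,
      Complex.conj_ofReal, neg_add, mul_neg]

theorem star_mulVec' {m : Type*} [Fintype m] (M : Matrix m m ℂ) (v : m → ℂ) :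
    star (M.mulVec v) = (M.map star).mulVec (star v) := by
  ext i
  simp [Matrix.mulVec, dotProduct, star_sum]

theorem star_vecMul' {m : Type*} [Fintype m] (M : Matrix m m ℂ) (v : m → ℂ) :
    star (Matrix.vecMul v M) = Matrix.vecMul (star v) (M.map star) := by
  ext i
  simp [Matrix.vecMul, dotProduct, star_sum, mul_comm]

theorem map_star_star {m : Type*} (M : Matrix m m ℂ) : (M.map star).map star = M := by
  ext i j
  simp

variable [Fintype n]

theorem star_dotProduct_star_comm_aux {m : Type*} [Fintype m] (v w : m → ℂ) :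
    star (v ⬝ᵥ w) = star v ⬝ᵥ star w := by
  simp [dotProduct, star_sum]

theorem KM_mulVec (u : (α → ℂ) × (β → ℂ)) (w₁ w₂ : n → ℂ) :
    (KM A B u).mulVec (Sum.elim w₁ w₂) =
      Sum.elim ((∑ s, u.1 s • A s).mulVec w₁ + ((∑ t, u.2 t • B t).map star).mulVec w₂)
        (-((∑ t, u.2 t • B t).mulVec w₁) + ((∑ s, u.1 s • A s).map star).mulVec w₂) := by
  rw [KM, Matrix.fromBlocks_mulVec]
  simp [Sum.elim_comp_inl, Sum.elim_comp_inr, Matrix.neg_mulVec]

theorem vecMul_KM (u : (α → ℂ) × (β → ℂ)) (l₁ l₂ : n → ℂ) :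
    Matrix.vecMul (Sum.elim l₁ l₂) (KM A B u) =
      Sum.elim (Matrix.vecMul l₁ (∑ s, u.1 s • A s) - Matrix.vecMul l₂ (∑ t, u.2 t • B t))
        (Matrix.vecMul l₁ ((∑ t, u.2 t • B t).map star)
          + Matrix.vecMul l₂ ((∑ s, u.1 s • A s).map star)) := by
  rw [KM, Matrix.vecMul_fromBlocks]
  simp [Sum.elim_comp_inl, Sum.elim_comp_inr, Matrix.vecMul_neg, sub_eq_add_neg]

theorem KM_J (u : (α → ℂ) × (β → ℂ)) (w₁ w₂ : n → ℂ)
    (h : (KM A B u).mulVec (Sum.elim w₁ w₂) = 0) :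
    (KM A B u).mulVec (Sum.elim (-star w₂) (star w₁)) = 0 := by
  rw [KM_mulVec] at h ⊢
  have h1 : (∑ s, u.1 s • A s).mulVec w₁ + ((∑ t, u.2 t • B t).map star).mulVec w₂ = 0 := by
    funext i
    exact congrFun h (Sum.inl i)
  have h2 : -((∑ t, u.2 t • B t).mulVec w₁) + ((∑ s, u.1 s • A s).map star).mulVec w₂ = 0 := by
    funext i
    exact congrFun h (Sum.inr i)
  have h1' := congrArg star h1
  have h2' := congrArg star h2
  rw [star_add, star_mulVec', star_mulVec', map_star_star, star_zero] at h1'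
  rw [star_add, star_neg, star_mulVec', star_mulVec', map_star_star, star_zero] at h2'
  have e1 : (∑ s, u.1 s • A s).mulVec (-star w₂) +
      ((∑ t, u.2 t • B t).map star).mulVec (star w₁) = 0 := by
    rw [Matrix.mulVec_neg, ← neg_zero, ← h2']
    abel
  have e2 : -((∑ t, u.2 t • B t).mulVec (-star w₂)) +
      ((∑ s, u.1 s • A s).map star).mulVec (star w₁) = 0 := by
    rw [Matrix.mulVec_neg, neg_neg, ← h1']
    abel
  rw [e1, e2]
  funext i
  cases i <;> rfl

theorem J_KM (u : (α → ℂ) × (β → ℂ)) (l₁ l₂ : n → ℂ)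
    (h : Matrix.vecMul (Sum.elim l₁ l₂) (KM A B u) = 0) :
    Matrix.vecMul (Sum.elim (star l₂) (-star l₁)) (KM A B u) = 0 := by
  rw [vecMul_KM] at h ⊢
  have h1 : Matrix.vecMul l₁ (∑ s, u.1 s • A s) - Matrix.vecMul l₂ (∑ t, u.2 t • B t) = 0 := by
    funext i
    exact congrFun h (Sum.inl i)
  have h2 : Matrix.vecMul l₁ ((∑ t, u.2 t • B t).map star)
          + Matrix.vecMul l₂ ((∑ s, u.1 s • A s).map star) = 0 := by
    funext i
    exact congrFun h (Sum.inr i)
  have h1' := congrArg star h1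
  have h2' := congrArg star h2
  rw [star_sub, star_vecMul', star_vecMul', star_zero] at h1'
  rw [star_add, star_vecMul', star_vecMul', map_star_star, map_star_star, star_zero] at h2'
  have e1 : Matrix.vecMul (star l₂) (∑ s, u.1 s • A s) -
      Matrix.vecMul (-star l₁) (∑ t, u.2 t • B t) = 0 := by
    rw [Matrix.neg_vecMul, ← h2']
    abel
  have e2 : Matrix.vecMul (star l₂) ((∑ t, u.2 t • B t).map star)
          + Matrix.vecMul (-star l₁) ((∑ s, u.1 s • A s).map star) = 0 := by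
    rw [Matrix.neg_vecMul, ← neg_zero, ← h1']
    abel
  rw [e1, e2]
  funext i
  cases i <;> rfl

theorem exists_ker {w : n ⊕ n → ℂ} (hw : w ≠ 0) (u : (α → ℂ) × (β → ℂ))
    (h : (KM A B u).mulVec w = 0) :
    ∃ w₁ w₂ : n → ℂ, w₁ ≠ 0 ∧ (KM A B u).mulVec (Sum.elim w₁ w₂) = 0 := by
  have hs : Sum.elim (w ∘ Sum.inl) (w ∘ Sum.inr) = w := Sum.elim_comp_inl_inr w
  by_cases h1 : w ∘ Sum.inl = 0
  · have h2 : w ∘ Sum.inr ≠ 0 := by
      intro h2
      apply hw
      rw [← hs, h1, h2]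
      funext i
      cases i <;> rfl
    refine ⟨-star (w ∘ Sum.inr), star (w ∘ Sum.inl), ?_, KM_J A B u _ _ (by rw [hs]; exact h)⟩
    rw [neg_ne_zero]
    exact star_ne_zero.2 h2
  · exact ⟨w ∘ Sum.inl, w ∘ Sum.inr, h1, by rw [hs]; exact h⟩

theorem exists_coker {l : n ⊕ n → ℂ} (hl : l ≠ 0) (u : (α → ℂ) × (β → ℂ))
    (h : Matrix.vecMul l (KM A B u) = 0) :
    ∃ l₁ l₂ : n → ℂ, l₁ ≠ 0 ∧ Matrix.vecMul (Sum.elim l₁ l₂) (KM A B u) = 0 := by
  have hs : Sum.elim (l ∘ Sum.inl) (l ∘ Sum.inr) = l := Sum.elim_comp_inl_inr l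
  by_cases h1 : l ∘ Sum.inl = 0
  · have h2 : l ∘ Sum.inr ≠ 0 := by
      intro h2
      apply hl
      rw [← hs, h1, h2]
      funext i
      cases i <;> rfl
    refine ⟨star (l ∘ Sum.inr), -star (l ∘ Sum.inl), ?_, J_KM A B u _ _ (by rw [hs]; exact h)⟩
    exact star_ne_zero.2 h2
  · exact ⟨l ∘ Sum.inl, l ∘ Sum.inr, h1, by rw [hs]; exact h⟩

theorem exists_det_quat_ne_zero {n : Type*} [Fintype n] [DecidableEq n] {α β : Type*} [Fintype α]
    [Fintype β] (A : α → Matrix n n ℂ) (B : β → Matrix n n ℂ)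
    (h : ∀ v ξ : n → ℂ, v ≠ 0 → ξ ≠ 0 →
      (∃ s, star v ⬝ᵥ (A s).mulVec ξ ≠ 0) ∨ (∃ t, v ⬝ᵥ (B t).mulVec ξ ≠ 0)) :
    ∃ (x : α → ℂ) (y : β → ℂ), (Matrix.fromBlocks (∑ s, x s • A s) ((∑ t, y t • B t).map star)
      (-(∑ t, y t • B t)) ((∑ s, x s • A s).map star)).det ≠ 0 := by
  classical
  by_contra hcon
  push Not at hcon
  have hdet : ∀ u : (α → ℂ) × (β → ℂ), (KM A B u).det = 0 := fun u => hcon u.1 u.2
  -- a point of maximal rank
  obtain ⟨u₀, hu₀⟩ : ∃ u₀ : (α → ℂ) × (β → ℂ), ∀ u, (KM A B u).rank ≤ (KM A B u₀).rank := by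
    have hb : BddAbove (Set.range fun u : (α → ℂ) × (β → ℂ) => (KM A B u).rank) := by
      refine ⟨Fintype.card (n ⊕ n), ?_⟩
      rintro _ ⟨u, rfl⟩
      exact Matrix.rank_le_card_width _
    obtain ⟨u₀, hu₀⟩ := Nat.sSup_mem (Set.range_nonempty
      (fun u : (α → ℂ) × (β → ℂ) => (KM A B u).rank)) hb
    refine ⟨u₀, fun u => ?_⟩
    simp only at hu₀
    rw [hu₀]
    exact le_csSup hb ⟨u, rfl⟩
  obtain ⟨w, hw0, hw⟩ := Matrix.exists_mulVec_eq_zero_iff.2 (hdet u₀)
  obtain ⟨l, hl0, hl⟩ := Matrix.exists_vecMul_eq_zero_iff.2 (hdet u₀)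
  obtain ⟨w₁, w₂, hw₁, hw⟩ := exists_ker A B hw0 u₀ hw
  obtain ⟨l₁, l₂, hl₁, hl⟩ := exists_coker A B hl0 u₀ hl
  have key : ∀ (w₁ w₂ : n → ℂ), (KM A B u₀).mulVec (Sum.elim w₁ w₂) = 0 →
      ∀ v : (α → ℂ) × (β → ℂ),
        (l₁ ⬝ᵥ ((∑ s, v.1 s • A s).mulVec w₁) + l₁ ⬝ᵥ (((∑ t, v.2 t • B t).map star).mulVec w₂))
        + (-(l₂ ⬝ᵥ ((∑ t, v.2 t • B t).mulVec w₁))
          + l₂ ⬝ᵥ (((∑ s, v.1 s • A s).map star).mulVec w₂)) = 0 := by
    intro w₁ w₂ hw v
    have h1 := first_order (KM A B u₀) (KM A B v)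
      (fun t => by rw [← KM_add]; exact hu₀ _) _ _ hw hl
    rw [KM_mulVec, sumElim_dotProduct_sumElim, dotProduct_add, dotProduct_add,
      dotProduct_neg] at h1
    exact h1
  have sA : ∀ (s : α) (c : ℂ), ∑ s', (Pi.single s c : α → ℂ) s' • A s' = c • A s := by
    intro s c
    rw [Finset.sum_eq_single s]
    · simp
    · intro b _ hb
      simp [Pi.single_eq_of_ne hb]
    · simp
  have sB : ∀ (s : β) (c : ℂ), ∑ s', (Pi.single s c : β → ℂ) s' • B s' = c • B s := by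
    intro s c
    rw [Finset.sum_eq_single s]
    · simp
    · intro b _ hb
      simp [Pi.single_eq_of_ne hb]
    · simp
  have ms : ∀ (c : ℂ) (M : Matrix n n ℂ), (c • M).map star = star c • M.map star := by
    intro c M
    ext i j
    simp
  have ms0 : ((0 : Matrix n n ℂ).map star) = 0 := by
    ext i j
    simp
  have hI : star Complex.I = -Complex.I := Complex.conj_I
  have kA : ∀ s, l₁ ⬝ᵥ ((A s).mulVec w₁) = 0 := by
    intro s
    have h1 := key w₁ w₂ hw (Pi.single s 1, 0)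
    have h2 := key w₁ w₂ hw (Pi.single s Complex.I, 0)
    simp only [sA, ms, Pi.zero_apply, zero_smul, Finset.sum_const_zero, Matrix.zero_mulVec,
      dotProduct_zero, ms0, add_zero, neg_zero, zero_add, Matrix.smul_mulVec, dotProduct_smul,
      smul_eq_mul, star_one, one_mul, hI] at h1 h2
    have h3 : (2 * Complex.I) * (l₁ ⬝ᵥ ((A s).mulVec w₁)) = 0 := by
      linear_combination h2 + Complex.I * h1
    rcases mul_eq_zero.1 h3 with h4 | h4
    · exact absurd h4 (by simp [Complex.I_ne_zero])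
    · exact h4
  have kB' : ∀ (w₁ w₂ : n → ℂ), (KM A B u₀).mulVec (Sum.elim w₁ w₂) = 0 → ∀ t,
      l₁ ⬝ᵥ (((B t).map star).mulVec w₂) = 0 := by
    intro w₁ w₂ hw t
    have h1 := key w₁ w₂ hw (0, Pi.single t 1)
    have h2 := key w₁ w₂ hw (0, Pi.single t Complex.I)
    simp only [sB, ms, Pi.zero_apply, zero_smul, Finset.sum_const_zero, Matrix.zero_mulVec,
      dotProduct_zero, ms0, add_zero, neg_zero, zero_add, Matrix.smul_mulVec, dotProduct_smul,
      smul_eq_mul, star_one, one_mul, hI] at h1 h2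
    have h3 : (-2 * Complex.I) * (l₁ ⬝ᵥ (((B t).map star).mulVec w₂)) = 0 := by
      linear_combination h2 - Complex.I * h1
    rcases mul_eq_zero.1 h3 with h4 | h4
    · exact absurd h4 (by simp [Complex.I_ne_zero])
    · exact h4
  have kB : ∀ t, star l₁ ⬝ᵥ ((B t).mulVec w₁) = 0 := by
    intro t
    have h1 := kB' _ _ (KM_J A B u₀ w₁ w₂ hw) t
    have h2 := congrArg star h1
    rw [star_dotProduct_star_comm_aux l₁ (((B t).map star).mulVec (star w₁)), star_mulVec',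
      map_star_star, star_star, star_zero] at h2
    exact h2
  rcases h (star l₁) w₁ (star_ne_zero.2 hl₁) hw₁ with ⟨s, hs⟩ | ⟨t, ht⟩
  · rw [star_star] at hs
    exact hs (kA s)
  · exact ht (kB t)

end Pool.Agent.Helper11.Griff
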